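import Mathlib

/-!
A fact on free groups: for `g ≠ 1` and finitely many `h` there is `k` such that `g` does not
commute with any of the `(k h) g (k h)⁻¹`.
-/

namespace Pool.Agent.Helper9.UGap

open Matrix

abbrev SL := SpecialLinearGroup (Fin 2) ℤ

/-- nonzero column vectors -/
abbrev NV := {v : Fin 2 → ℤ // v ≠ 0}

theorem mulVec_ne (g : SL) (v : NV) : g.1 *ᵥ v.1 ≠ 0 := by
  intro h
  have : g⁻¹.1 *ᵥ (g.1 *ᵥ v.1) = v.1 := by
    rw [Matrix.mulVec_mulVec]
    have h2 : g⁻¹.1 * g.1 = 1 := congrArg Subtype.val (inv_mul_cancel g)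
    rw [h2, Matrix.one_mulVec]
  rw [h, Matrix.mulVec_zero] at this
  exact v.2 this.symm

instance : MulAction SL NV where
  smul g v := ⟨g.1 *ᵥ v.1, mulVec_ne g v⟩
  one_smul v := by
    apply Subtype.ext
    show (1 : SL).1 *ᵥ v.1 = v.1
    simp
  mul_smul g h v := by
    apply Subtype.ext
    show (g * h).1 *ᵥ v.1 = g.1 *ᵥ (h.1 *ᵥ v.1)
    rw [Matrix.mulVec_mulVec]
    simp

theorem smul_val (g : SL) (v : NV) : (g • v).1 = g.1 *ᵥ v.1 := rfl

/-- the Sanov matrices -/
def SA (n : ℤ) : SL := ⟨!![1, 2 * n; 0, 1], by simp [Matrix.det_fin_two]⟩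
def SB (n : ℤ) : SL := ⟨!![1, 0; 2 * n, 1], by simp [Matrix.det_fin_two]⟩

theorem SA_mul (m n : ℤ) : SA m * SA n = SA (m + n) := by
  apply Subtype.ext
  show !![1, 2 * m; 0, 1] * !![1, 2 * n; 0, 1] = !![1, 2 * (m + n); 0, 1]
  rw [Matrix.mul_fin_two]
  congr 1
  ring_nf

theorem SB_mul (m n : ℤ) : SB m * SB n = SB (m + n) := by
  apply Subtype.ext
  show !![1, 0; 2 * m, 1] * !![1, 0; 2 * n, 1] = !![1, 0; 2 * (m + n), 1]
  rw [Matrix.mul_fin_two]
  congr 1
  ring_nf

theorem SA_zero : SA 0 = 1 := by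
  apply Subtype.ext
  show !![1, 2 * (0 : ℤ); 0, 1] = 1
  rw [Matrix.one_fin_two]; simp

theorem SB_zero : SB 0 = 1 := by
  apply Subtype.ext
  show !![1, 0; 2 * (0 : ℤ), 1] = 1
  rw [Matrix.one_fin_two]; simp

theorem SA_inv (n : ℤ) : (SA n)⁻¹ = SA (-n) := by
  rw [inv_eq_iff_mul_eq_one, SA_mul, add_neg_cancel, SA_zero]

theorem SB_inv (n : ℤ) : (SB n)⁻¹ = SB (-n) := by
  rw [inv_eq_iff_mul_eq_one, SB_mul, add_neg_cancel, SB_zero]

theorem SA_smul (n : ℤ) (v : NV) : ((SA n • v).1 0 = v.1 0 + 2 * n * v.1 1) ∧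
    ((SA n • v).1 1 = v.1 1) := by
  rw [smul_val]
  simp [SA, Matrix.mulVec, dotProduct, Fin.sum_univ_two]

theorem SB_smul (n : ℤ) (v : NV) : ((SB n • v).1 0 = v.1 0) ∧
    ((SB n • v).1 1 = 2 * n * v.1 0 + v.1 1) := by
  rw [smul_val]
  simp [SB, Matrix.mulVec, dotProduct, Fin.sum_univ_two]

/-- generators -/
def gen : Fin 2 → SL := ![SA 1, SB 1]

/-- the Sanov representation -/
def sanov : FreeGroup (Fin 2) →* SL := FreeGroup.lift gen

def XX (i : Fin 2) : Set NV := {v | if i = 0 then v.1 1 * v.1 1 ≤ v.1 0 * v.1 1 else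
  0 ≤ v.1 0 * v.1 1 ∧ v.1 0 * v.1 1 < v.1 1 * v.1 1}

def YY (i : Fin 2) : Set NV := {v | if i = 0 then v.1 0 * v.1 1 < - (v.1 1 * v.1 1) else
  - (v.1 1 * v.1 1) ≤ v.1 0 * v.1 1 ∧ v.1 0 * v.1 1 < 0}

theorem nv_ne (v : NV) : v.1 0 ≠ 0 ∨ v.1 1 ≠ 0 := by
  by_contra h
  push Not at h
  apply v.2
  ext i
  fin_cases i
  · exact h.1
  · exact h.2

open scoped Pointwise in
theorem sanov_injective : Function.Injective sanov := by
  refine FreeGroup.injective_lift_of_ping_pong gen XX YY ?_ ?_ ?_ ?_ ?_ ?_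
  · intro i
    fin_cases i
    · refine ⟨⟨![1, 0], ?_⟩, ?_⟩
      · intro h; have := congrFun h 0; simp at this
      · simp [XX]
    · refine ⟨⟨![0, 1], ?_⟩, ?_⟩
      · intro h; have := congrFun h 1; simp at this
      · simp [XX]
  · intro i j hij
    show Disjoint (XX i) (XX j)
    rw [Set.disjoint_left]
    intro v hi hj
    fin_cases i <;> fin_cases j <;> simp [XX] at hi hj hij <;> omega
  · intro i j hij
    show Disjoint (YY i) (YY j)
    rw [Set.disjoint_left]
    intro v hi hj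
    fin_cases i <;> fin_cases j <;> simp [YY] at hi hj hij <;> omega
  · intro i j
    rw [Set.disjoint_left]
    intro v hi hj
    have hn := mul_self_nonneg (v.1 1)
    fin_cases i <;> fin_cases j <;> simp [XX, YY] at hi hj <;> omega
  · intro i
    rintro _ ⟨v, hv, rfl⟩
    have h1 := SA_smul 1 v
    have h2 := SB_smul 1 v
    have hn := nv_ne v
    revert h1 h2 hn
    generalize hx : v.1 0 = x
    generalize hy : v.1 1 = y
    intro h1 h2 hn
    fin_cases i
    · have hv' : ¬ (x * y < -(y * y)) := by rw [← hx, ← hy]; exact hv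
      show (SA 1 • v).1 1 * (SA 1 • v).1 1 ≤ (SA 1 • v).1 0 * (SA 1 • v).1 1
      rw [h1.1, h1.2]
      nlinarith
    · have hv' : ¬ (-(y * y) ≤ x * y ∧ x * y < 0) := by rw [← hx, ← hy]; exact hv
      show 0 ≤ (SB 1 • v).1 0 * (SB 1 • v).1 1 ∧
        (SB 1 • v).1 0 * (SB 1 • v).1 1 < (SB 1 • v).1 1 * (SB 1 • v).1 1
      rw [h2.1, h2.2]
      rcases lt_or_ge (x * y) 0 with h | h
      · have h3 : x * y < -(y * y) := by
          by_contra hc
          exact hv' ⟨not_lt.1 hc, h⟩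
        constructor <;> nlinarith [mul_self_nonneg (x + y)]
      · have h4 : 0 < x * x + y * y := by
          rcases hn with hn | hn
          · nlinarith [mul_self_pos.2 hn, mul_self_nonneg y]
          · nlinarith [mul_self_pos.2 hn, mul_self_nonneg x]
        constructor <;> nlinarith [mul_self_nonneg x, mul_self_nonneg y]
  · intro i
    rintro _ ⟨v, hv, rfl⟩
    have h1 := SA_smul (-1) v
    have h2 := SB_smul (-1) v
    have hn := nv_ne v
    revert h1 h2 hn
    generalize hx : v.1 0 = x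
    generalize hy : v.1 1 = y
    intro h1 h2 hn
    fin_cases i
    · have hv' : ¬ (y * y ≤ x * y) := by rw [← hx, ← hy]; exact hv
      have e : gen⁻¹ 0 = SA (-1) := SA_inv 1
      show (gen⁻¹ 0 • v).1 0 * (gen⁻¹ 0 • v).1 1 < - ((gen⁻¹ 0 • v).1 1 * (gen⁻¹ 0 • v).1 1)
      rw [e, h1.1, h1.2]
      nlinarith
    · have hv' : ¬ (0 ≤ x * y ∧ x * y < y * y) := by rw [← hx, ← hy]; exact hv
      have e : gen⁻¹ 1 = SB (-1) := SB_inv 1
      show - ((gen⁻¹ 1 • v).1 1 * (gen⁻¹ 1 • v).1 1) ≤ (gen⁻¹ 1 • v).1 0 * (gen⁻¹ 1 • v).1 1 ∧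
        (gen⁻¹ 1 • v).1 0 * (gen⁻¹ 1 • v).1 1 < 0
      rw [e, h2.1, h2.2]
      rcases lt_or_ge (x * y) 0 with h | h
      · constructor <;> nlinarith [mul_self_nonneg x, mul_self_nonneg y]
      · have h3 : y * y ≤ x * y := by
          by_contra hc
          exact hv' ⟨h, not_le.1 hc⟩
        have h4 : 0 < x * x := by
          rcases hn with hn | hn
          · exact mul_self_pos.2 hn
          · apply mul_self_pos.2
            rintro rfl
            have := mul_self_pos.2 hn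
            nlinarith
        constructor <;> nlinarith [mul_self_nonneg (x - y)]

/-! ### Commuting in `SL` -/

theorem SA_conj (n : ℤ) (M : SL) : (SA n * M * SA (-n)).1 =
    !![M.1 0 0 + 2 * n * M.1 1 0, -(2 * n) * (M.1 0 0 + 2 * n * M.1 1 0) + M.1 0 1
      + 2 * n * M.1 1 1; M.1 1 0, -(2 * n) * M.1 1 0 + M.1 1 1] := by
  show !![1, 2 * n; 0, 1] * M.1 * !![1, 2 * -n; 0, 1] = _
  rw [Matrix.eta_fin_two M.1, Matrix.mul_fin_two, Matrix.mul_fin_two]
  simp only [Matrix.of_apply, Matrix.cons_val', Matrix.cons_val_zero, Matrix.cons_val_one,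
    Matrix.cons_val_fin_one]
  congr 1
  ext i j
  fin_cases i <;> fin_cases j <;> simp <;> ring

theorem SB_conj (n : ℤ) (M : SL) : (SB n * M * SB (-n)).1 =
    !![M.1 0 0 - 2 * n * M.1 0 1, M.1 0 1; 2 * n * (M.1 0 0 - 2 * n * M.1 0 1) + M.1 1 0
      - 2 * n * M.1 1 1, 2 * n * M.1 0 1 + M.1 1 1] := by
  show !![1, 0; 2 * n, 1] * M.1 * !![1, 0; 2 * -n, 1] = _
  rw [Matrix.eta_fin_two M.1, Matrix.mul_fin_two, Matrix.mul_fin_two]
  simp only [Matrix.of_apply, Matrix.cons_val', Matrix.cons_val_zero, Matrix.cons_val_one,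
    Matrix.cons_val_fin_one]
  congr 1
  ext i j
  fin_cases i <;> fin_cases j <;> simp <;> ring

theorem comm_entries {G N : SL} (h : Commute G N) :
    G.1 1 0 * (N.1 0 0 - N.1 1 1) = N.1 1 0 * (G.1 0 0 - G.1 1 1) ∧
    G.1 0 1 * (N.1 0 0 - N.1 1 1) = N.1 0 1 * (G.1 0 0 - G.1 1 1) ∧
    G.1 0 1 * N.1 1 0 = N.1 0 1 * G.1 1 0 := by
  have h1 : G.1 * N.1 = N.1 * G.1 := congrArg Subtype.val h.eq
  have e := fun i j => congrFun (congrFun h1 i) j
  have e00 := e 0 0
  have e01 := e 0 1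
  have e10 := e 1 0
  simp only [Matrix.mul_apply, Fin.sum_univ_two] at e00 e01 e10
  refine ⟨?_, ?_, ?_⟩ <;> linarith

theorem eq_pm_one {M : SL} (h10 : M.1 1 0 = 0) (h01 : M.1 0 1 = 0) (hd : M.1 0 0 = M.1 1 1) :
    M = 1 ∨ M = -1 := by
  have hdet := M.2
  rw [Matrix.det_fin_two, h10, h01, ← hd] at hdet
  have h2 : M.1 0 0 * M.1 0 0 = 1 := by linarith
  have h3 : M.1 0 0 = 1 ∨ M.1 0 0 = -1 := by
    have := Int.isUnit_iff.1 (IsUnit.of_mul_eq_one _ h2)
    exact this
  rcases h3 with h3 | h3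
  · left
    apply Subtype.ext
    ext i j
    fin_cases i <;> fin_cases j <;> simp [h10, h01, h3, ← hd]
  · right
    apply Subtype.ext
    ext i j
    fin_cases i <;> fin_cases j <;> simp [h10, h01, h3, ← hd]

/-- at most one `n` such that `SA n * M * (SA n)⁻¹` commutes with `G`. -/
theorem SA_comm {G M : SL} (hG : G.1 1 0 ≠ 0) (hM : M ≠ 1) (hM' : M ≠ -1) {m n : ℤ}
    (h1 : Commute G (SA m * M * (SA m)⁻¹)) (h2 : Commute G (SA n * M * (SA n)⁻¹)) : m = n := by
  rw [SA_inv] at h1 h2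
  have a1 := comm_entries h1
  have a2 := comm_entries h2
  rw [SA_conj] at a1 a2
  simp only [Matrix.of_apply, Matrix.cons_val', Matrix.cons_val_zero, Matrix.cons_val_one,
    Matrix.cons_val_fin_one] at a1 a2
  obtain ⟨a, -, c⟩ := a1
  obtain ⟨a', -, -⟩ := a2
  have h3 : G.1 1 0 * (M.1 1 0 * (m - n)) = 0 := by linarith
  rcases mul_eq_zero.1 h3 with h4 | h4
  · exact absurd h4 hG
  rcases mul_eq_zero.1 h4 with h5 | h5
  · exfalso
    rw [h5] at a c
    have h6 : G.1 1 0 * (M.1 0 0 - M.1 1 1) = 0 := by linarith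
    rcases mul_eq_zero.1 h6 with h7 | h7
    · exact hG h7
    · have h8 : M.1 0 0 = M.1 1 1 := by linarith
      rw [h8] at c
      have h9 : M.1 0 1 * G.1 1 0 = 0 := by linarith
      rcases mul_eq_zero.1 h9 with h10 | h10
      · rcases eq_pm_one h5 h10 h8 with h | h
        · exact hM h
        · exact hM' h
      · exact hG h10
  · linarith

theorem SB_comm {G M : SL} (hG : G.1 0 1 ≠ 0) (hM : M ≠ 1) (hM' : M ≠ -1) {m n : ℤ}
    (h1 : Commute G (SB m * M * (SB m)⁻¹)) (h2 : Commute G (SB n * M * (SB n)⁻¹)) : m = n := by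
  rw [SB_inv] at h1 h2
  have a1 := comm_entries h1
  have a2 := comm_entries h2
  rw [SB_conj] at a1 a2
  simp only [Matrix.of_apply, Matrix.cons_val', Matrix.cons_val_zero, Matrix.cons_val_one,
    Matrix.cons_val_fin_one] at a1 a2
  obtain ⟨-, a, c⟩ := a1
  obtain ⟨-, a', -⟩ := a2
  have h3 : G.1 0 1 * (M.1 0 1 * (m - n)) = 0 := by linarith
  rcases mul_eq_zero.1 h3 with h4 | h4
  · exact absurd h4 hG
  rcases mul_eq_zero.1 h4 with h5 | h5
  · exfalso
    rw [h5] at a c
    have h6 : G.1 0 1 * (M.1 0 0 - M.1 1 1) = 0 := by linarith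
    rcases mul_eq_zero.1 h6 with h7 | h7
    · exact hG h7
    · have h8 : M.1 0 0 = M.1 1 1 := by linarith
      rw [h8] at c
      have h9 : G.1 0 1 * M.1 1 0 = 0 := by linarith
      rcases mul_eq_zero.1 h9 with h10 | h10
      · exact hG h10
      · rcases eq_pm_one h10 h5 h8 with h | h
        · exact hM h
        · exact hM' h
  · linarith

/-! ### The statement for the free group -/

abbrev F2 := FreeGroup (Fin 2)

theorem sanov_ne {g : F2} (hg : g ≠ 1) : sanov g ≠ 1 ∧ sanov g ≠ -1 := by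
  constructor
  · intro h
    exact hg (sanov_injective (by rw [h, map_one]))
  · intro h
    have h2 : sanov (g ^ 2) = 1 := by
      rw [map_pow, h]
      simp
    have h3 : g ^ 2 = 1 := sanov_injective (by rw [h2, map_one])
    exact hg (by
      have := (pow_left_injective (M := F2) (n := 2) (by norm_num)) (a₁ := g) (a₂ := 1)
        (by simpa using h3)
      exact this)

theorem sanov_of_pow (n : ℤ) : sanov ((FreeGroup.of 0) ^ n) = SA n ∧
    sanov ((FreeGroup.of 1) ^ n) = SB n := by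
  have h0 : sanov (FreeGroup.of 0) = SA 1 := by simp [sanov, gen]
  have h1 : sanov (FreeGroup.of 1) = SB 1 := by simp [sanov, gen]
  rw [map_zpow, map_zpow, h0, h1]
  constructor
  · induction n using Int.induction_on with
    | zero => rw [zpow_zero, SA_zero]
    | succ k ih => rw [_root_.zpow_add_one, ih, SA_mul]
    | pred k ih => rw [_root_.zpow_sub_one, ih, SA_inv, SA_mul]; rfl
  · induction n using Int.induction_on with
    | zero => rw [zpow_zero, SB_zero]
    | succ k ih => rw [_root_.zpow_add_one, ih, SB_mul]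
    | pred k ih => rw [_root_.zpow_sub_one, ih, SB_inv, SB_mul]; rfl

/-- for `g ≠ 1` and finitely many `h` there is `k` such that `g` does not commute with any
`(k h) g (k h)⁻¹` -/
theorem exists_noncomm {g : F2} (hg : g ≠ 1) (S : Finset F2) :
    ∃ k : F2, ∀ h ∈ S, ¬ Commute g ((k * h) * g * (k * h)⁻¹) := by
  classical
  obtain ⟨n1, n2⟩ := sanov_ne hg
  -- a family `s n`
  obtain ⟨s, hs⟩ : ∃ s : ℤ → F2, ∀ h : F2, ∀ m n : ℤ,
      Commute g ((s m * h) * g * (s m * h)⁻¹) → Commute g ((s n * h) * g * (s n * h)⁻¹) →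
      m = n := by
    have hconj : ∀ (k h : F2), sanov ((k * h) * g * (k * h)⁻¹) =
        sanov k * sanov (h * g * h⁻¹) * (sanov k)⁻¹ := by
      intro k h
      simp only [map_mul, map_inv]
      group
    have hne : ∀ h : F2, h * g * h⁻¹ ≠ 1 := by
      intro h hc
      exact hg (conj_eq_one_iff.1 hc)
    by_cases hc : (sanov g).1 1 0 = 0
    · have hb : (sanov g).1 0 1 ≠ 0 := by
        intro hb
        have hdet := (sanov g).2
        rw [Matrix.det_fin_two, hc, hb] at hdet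
        have h2 : (sanov g).1 0 0 * (sanov g).1 1 1 = 1 := by linarith
        have h3 := Int.isUnit_iff.1 (IsUnit.of_mul_eq_one _ h2)
        have h4 : (sanov g).1 0 0 = (sanov g).1 1 1 := by
          rcases h3 with h3 | h3 <;> rw [h3] at h2 ⊢ <;> linarith
        rcases eq_pm_one hc hb h4 with h | h
        · exact n1 h
        · exact n2 h
      refine ⟨fun n => (FreeGroup.of 1) ^ n, ?_⟩
      intro h m n c1 c2
      have d1 := c1.map sanov
      have d2 := c2.map sanov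
      rw [hconj, (sanov_of_pow _).2] at d1 d2
      exact SB_comm hb (sanov_ne (hne h)).1 (sanov_ne (hne h)).2 d1 d2
    · refine ⟨fun n => (FreeGroup.of 0) ^ n, ?_⟩
      intro h m n c1 c2
      have d1 := c1.map sanov
      have d2 := c2.map sanov
      rw [hconj, (sanov_of_pow _).1] at d1 d2
      exact SA_comm hc (sanov_ne (hne h)).1 (sanov_ne (hne h)).2 d1 d2
  -- pigeonhole
  have hfin : (⋃ h ∈ S, {n : ℤ | Commute g ((s n * h) * g * (s n * h)⁻¹)}).Finite := by
    apply Set.Finite.biUnion S.finite_toSet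
    intro h _
    apply Set.Subsingleton.finite
    intro m hm n hn
    exact hs h m n hm hn
  obtain ⟨n, hn⟩ := hfin.exists_notMem
  refine ⟨s n, fun h hh hcon => hn ?_⟩
  rw [Set.mem_iUnion₂]
  exact ⟨h, hh, hcon⟩

end Pool.Agent.Helper9.UGap
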