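import Mathlib
import Pool.Agent.Helper9.UGap.Free

/-!
Averaging over conjugates in a tracial von Neumann algebra: the abstract part.
-/

namespace Pool.Agent.Helper9.UGap

open scoped InnerProductSpace ComplexConjugate
open Filter Topology

noncomputable section

variable {E : Type*} [NormedAddCommGroup E] [InnerProductSpace ℂ E] [CompleteSpace E]

/-- A set `P` of bounded operators, a `*`-algebra, on which the unit vector `δ` is a trace, and on
whose bounded sets the convergence at `δ` gives strong convergence. -/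
structure Std (P : (E →L[ℂ] E) → Prop) (δ : E) : Prop where
  norm_one : ‖δ‖ = 1
  one : P 1
  add : ∀ {S T}, P S → P T → P (S + T)
  smul : ∀ (c : ℂ) {T}, P T → P (c • T)
  mul : ∀ {S T}, P S → P T → P (S * T)
  star : ∀ {T}, P T → P (star T)
  trace : ∀ {S T}, P S → P T → ⟪δ, S (T δ)⟫_ℂ = ⟪δ, T (S δ)⟫_ℂ
  dom : ∀ (f : E) (C ε : ℝ), 0 < ε →
    ∃ η > 0, ∀ D, P D → ‖D‖ ≤ C → ‖D δ‖ ≤ η → ‖D f‖ ≤ ε

omit [CompleteSpace E] in
theorem mul_app (S T : E →L[ℂ] E) (x : E) : (S * T) x = S (T x) := rfl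

omit [CompleteSpace E] in
theorem one_app (x : E) : (1 : E →L[ℂ] E) x = x := rfl

/-- moving an operator to the other side -/
theorem inner_star (T : E →L[ℂ] E) (x y : E) : ⟪T x, y⟫_ℂ = ⟪x, (star T) y⟫_ℂ := by
  rw [ContinuousLinearMap.star_eq_adjoint, ContinuousLinearMap.adjoint_inner_right]

theorem inner_star' (T : E →L[ℂ] E) (x y : E) : ⟪x, T y⟫_ℂ = ⟪(star T) x, y⟫_ℂ := by
  rw [ContinuousLinearMap.star_eq_adjoint, ContinuousLinearMap.adjoint_inner_left]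

section
variable {P : (E →L[ℂ] E) → Prop} {δ : E} (hS : Std P δ)
include hS

theorem Std.neg {T} (h : P T) : P (-T) := by
  have := hS.smul (-1) h
  simpa using this

theorem Std.sub {S T} (h : P S) (h' : P T) : P (S - T) := by
  rw [sub_eq_add_neg]
  exact hS.add h (hS.neg h')

theorem Std.rsmul (c : ℝ) {T} (h : P T) : P (c • T) := by
  have := hS.smul (c : ℂ) h
  rwa [Complex.coe_smul] at this

end

variable (φ : F2 →* unitary (E →L[ℂ] E))

/-- the operator of a word -/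
def U (w : F2) : E →L[ℂ] E := (φ w).1

theorem U_one : U φ 1 = 1 := by simp [U]

theorem U_mul (a b : F2) : U φ (a * b) = U φ a * U φ b := by simp [U]

theorem U_star (a : F2) : star (U φ a) = U φ a⁻¹ := by
  unfold U
  rw [map_inv]
  rfl

theorem U_mul_inv (a : F2) : U φ a * U φ a⁻¹ = 1 := by
  rw [← U_mul, mul_inv_cancel, U_one]

theorem U_inv_mul (a : F2) : U φ a⁻¹ * U φ a = 1 := by
  rw [← U_mul, inv_mul_cancel, U_one]

theorem U_norm_apply (a : F2) (x : E) : ‖U φ a x‖ = ‖x‖ := by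
  have h : ⟪U φ a x, U φ a x⟫_ℂ = ⟪x, x⟫_ℂ := by
    rw [inner_star, U_star]
    have := congrArg (fun T : E →L[ℂ] E => T x) (U_inv_mul φ a)
    simp only [mul_app, one_app] at this
    rw [this]
  have h2 : ‖U φ a x‖ ^ 2 = ‖x‖ ^ 2 := by
    have h3 := inner_self_eq_norm_sq_to_K (𝕜 := ℂ) (U φ a x)
    have h4 := inner_self_eq_norm_sq_to_K (𝕜 := ℂ) x
    rw [h] at h3
    rw [h4] at h3
    exact_mod_cast h3.symm
  exact (sq_eq_sq₀ (norm_nonneg _) (norm_nonneg _)).1 h2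

theorem U_norm_le (a : F2) : ‖U φ a‖ ≤ 1 := by
  refine ContinuousLinearMap.opNorm_le_bound _ zero_le_one fun x => ?_
  rw [U_norm_apply, one_mul]

/-- conjugation by the operator of a word -/
def cj (k : F2) (B : E →L[ℂ] E) : E →L[ℂ] E := U φ k * B * U φ k⁻¹

theorem cj_add (k : F2) (B C : E →L[ℂ] E) : cj φ k (B + C) = cj φ k B + cj φ k C := by
  simp only [cj, mul_add, add_mul]

theorem cj_sub (k : F2) (B C : E →L[ℂ] E) : cj φ k (B - C) = cj φ k B - cj φ k C := by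
  simp only [cj, mul_sub, sub_mul]

theorem cj_smul (k : F2) (c : ℂ) (B : E →L[ℂ] E) : cj φ k (c • B) = c • cj φ k B := by
  simp only [cj, mul_smul_comm, smul_mul_assoc]

theorem cj_rsmul (k : F2) (c : ℝ) (B : E →L[ℂ] E) : cj φ k (c • B) = c • cj φ k B := by
  simp only [cj, mul_smul_comm, smul_mul_assoc]

theorem cj_cj (k l : F2) (B : E →L[ℂ] E) : cj φ k (cj φ l B) = cj φ (k * l) B := by
  simp only [cj, U_mul, mul_inv_rev, mul_assoc]

theorem cj_mul (k : F2) (B C : E →L[ℂ] E) : cj φ k (B * C) = cj φ k B * cj φ k C := by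
  simp only [cj]
  calc U φ k * (B * C) * U φ k⁻¹ = U φ k * B * (1 * C) * U φ k⁻¹ := by
        rw [one_mul]; simp only [mul_assoc]
    _ = _ := by
        rw [← U_inv_mul φ k]; simp only [mul_assoc]

theorem cj_star (k : F2) (B : E →L[ℂ] E) : star (cj φ k B) = cj φ k (star B) := by
  simp only [cj, star_mul, U_star, inv_inv, mul_assoc]

theorem cj_one (k : F2) : cj φ k (1 : E →L[ℂ] E) = 1 := by
  simp only [cj, mul_one, U_mul_inv]

theorem cj_U (k g : F2) : cj φ k (U φ g) = U φ (k * g * k⁻¹) := by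
  simp only [cj, U_mul]

theorem cj_norm_le (k : F2) (B : E →L[ℂ] E) : ‖cj φ k B‖ ≤ ‖B‖ := by
  have h1 := U_norm_le φ k
  have h2 := U_norm_le φ k⁻¹
  calc ‖U φ k * B * U φ k⁻¹‖ ≤ ‖U φ k * B‖ * ‖U φ k⁻¹‖ := norm_mul_le _ _
    _ ≤ (‖U φ k‖ * ‖B‖) * ‖U φ k⁻¹‖ := by gcongr; exact norm_mul_le _ _
    _ ≤ (1 * ‖B‖) * 1 := by gcongr
    _ = ‖B‖ := by ring

section
variable {P : (E →L[ℂ] E) → Prop} {δ : E} (hS : Std P δ) (hP : ∀ w, P (U φ w))
include hS hP

theorem P_cj (k : F2) {B : E →L[ℂ] E} (h : P B) : P (cj φ k B) :=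
  hS.mul (hS.mul (hP _) h) (hP _)

theorem tau_cj (k : F2) {B : E →L[ℂ] E} (h : P B) : ⟪δ, cj φ k B δ⟫_ℂ = ⟪δ, B δ⟫_ℂ := by
  have h1 := hS.trace (hP k) (hS.mul h (hP k⁻¹))
  have h2 : ⟪δ, cj φ k B δ⟫_ℂ = ⟪δ, U φ k ((B * U φ k⁻¹) δ)⟫_ℂ := by
    simp only [cj, mul_app]
  rw [h2, h1]
  simp only [mul_app]
  have := congrArg (fun T : E →L[ℂ] E => T δ) (U_inv_mul φ k)
  simp only [mul_app, one_app] at this
  rw [this]

theorem norm_cj (k : F2) {B : E →L[ℂ] E} (h : P B) : ‖cj φ k B δ‖ = ‖B δ‖ := by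
  have h1 : ⟪cj φ k B δ, cj φ k B δ⟫_ℂ = ⟪B δ, B δ⟫_ℂ := by
    rw [inner_star, inner_star, cj_star]
    have h2 := tau_cj φ hS hP k (hS.mul (hS.star h) h)
    rw [cj_mul] at h2
    simpa only [mul_app] using h2
  have h3 := inner_self_eq_norm_sq_to_K (𝕜 := ℂ) (cj φ k B δ)
  have h4 := inner_self_eq_norm_sq_to_K (𝕜 := ℂ) (B δ)
  rw [h1, h4] at h3
  have h5 : ‖cj φ k B δ‖ ^ 2 = ‖B δ‖ ^ 2 := by exact_mod_cast h3.symm
  exact (sq_eq_sq₀ (norm_nonneg _) (norm_nonneg _)).1 h5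

end

/-- the properties shared by all averages of conjugates of `A` -/
structure Good (P : (E →L[ℂ] E) → Prop) (δ : E) (A B : E →L[ℂ] E) : Prop where
  mem : P B
  le : ‖B‖ ≤ ‖A‖
  tau : ⟪δ, B δ⟫_ℂ = ⟪δ, A δ⟫_ℂ
  comm : ∀ S : E →L[ℂ] E, (∀ w, Commute S (U φ w)) → Commute S B

/-- the averages of the conjugates of `A` -/
def av (A : E →L[ℂ] E) : Set (E →L[ℂ] E) := convexHull ℝ (Set.range fun k => cj φ k A)

theorem cj_av (k : F2) {A B : E →L[ℂ] E} (h : B ∈ av φ A) : cj φ k B ∈ av φ A := by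
  have : av φ A ⊆ {B | cj φ k B ∈ av φ A} := by
    refine convexHull_min ?_ ?_
    · rintro _ ⟨l, rfl⟩
      show cj φ k (cj φ l A) ∈ av φ A
      rw [cj_cj]
      exact subset_convexHull ℝ _ ⟨k * l, rfl⟩
    · intro x hx y hy a b ha hb hab
      show cj φ k (a • x + b • y) ∈ av φ A
      rw [cj_add, cj_rsmul, cj_rsmul]
      exact convex_convexHull ℝ _ hx hy ha hb hab
  exact this h

section
variable {P : (E →L[ℂ] E) → Prop} {δ : E} (hS : Std P δ) (hP : ∀ w, P (U φ w))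
include hS hP

theorem good_av {A : E →L[ℂ] E} (hA : P A)
    (hc : ∀ S : E →L[ℂ] E, (∀ w, Commute S (U φ w)) → Commute S A)
    {B : E →L[ℂ] E} (h : B ∈ av φ A) : Good φ P δ A B := by
  have : av φ A ⊆ {B | Good φ P δ A B} := by
    refine convexHull_min ?_ ?_
    · rintro _ ⟨l, rfl⟩
      exact ⟨P_cj φ hS hP l hA, cj_norm_le φ l A, tau_cj φ hS hP l hA,
        fun S hS => ((hS l).mul_right (hc S hS)).mul_right (hS l⁻¹)⟩
    · intro x hx y hy a b ha hb hab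
      refine ⟨hS.add (hS.rsmul a hx.mem) (hS.rsmul b hy.mem), ?_, ?_, ?_⟩
      · calc ‖a • x + b • y‖ ≤ ‖a • x‖ + ‖b • y‖ := norm_add_le _ _
          _ = a * ‖x‖ + b * ‖y‖ := by
              rw [norm_smul, norm_smul, Real.norm_of_nonneg ha, Real.norm_of_nonneg hb]
          _ ≤ a * ‖A‖ + b * ‖A‖ := by
              gcongr
              · exact hx.le
              · exact hy.le
          _ = ‖A‖ := by rw [← add_mul, hab, one_mul]
      · have e : (a • x + b • y) δ = (a : ℂ) • (x δ) + (b : ℂ) • (y δ) := rfl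
        rw [e, inner_add_right, inner_smul_right, inner_smul_right, hx.tau, hy.tau, ← add_mul]
        have : (a : ℂ) + b = 1 := by exact_mod_cast hab
        rw [this, one_mul]
      · intro S hS
        have h1 := (hx.comm S hS).smul_right a
        have h2 := (hy.comm S hS).smul_right b
        exact h1.add_right h2
  exact this h

theorem almost_scalar {A : E →L[ℂ] E} (hA : P A)
    (hc : ∀ S : E →L[ℂ] E, (∀ w, Commute S (U φ w)) → Commute S A)
    (hfac : ∀ T : E →L[ℂ] E, (∀ w, Commute T (U φ w)) →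
      (∀ S : E →L[ℂ] E, (∀ w, Commute S (U φ w)) → Commute S T) → ∃ c : ℂ, T = c • 1)
    {η : ℝ} (hη : 0 < η) : ∃ B ∈ av φ A, ‖B δ - ⟪δ, A δ⟫_ℂ • δ‖ < η := by
  classical
  have hgood := fun {B} (h : B ∈ av φ A) => good_av φ hS hP hA hc h
  set N : Set ℝ := (fun B : E →L[ℂ] E => ‖B δ‖) '' av φ A with hN
  have hAav : A ∈ av φ A := subset_convexHull ℝ _ ⟨1, by simp [cj, U_one]⟩
  have hNne : N.Nonempty := ⟨_, A, hAav, rfl⟩
  have hNbdd : BddBelow N := ⟨0, by rintro _ ⟨B, _, rfl⟩; exact norm_nonneg _⟩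
  set m := sInf N with hm
  have hm0 : 0 ≤ m := le_csInf hNne (by rintro _ ⟨B, _, rfl⟩; exact norm_nonneg _)
  have hmle : ∀ B ∈ av φ A, m ≤ ‖B δ‖ := fun B hB => csInf_le hNbdd ⟨B, hB, rfl⟩
  have key : ∀ B ∈ av φ A, ∀ C ∈ av φ A,
      ‖B δ - C δ‖ ^ 2 ≤ 2 * (‖B δ‖ ^ 2 + ‖C δ‖ ^ 2) - 4 * m ^ 2 := by
    intro B hB C hC
    have h1 : (2⁻¹ : ℝ) • B + (2⁻¹ : ℝ) • C ∈ av φ A :=
      convex_convexHull ℝ _ hB hC (by norm_num) (by norm_num) (by norm_num)
    have h2 := hmle _ h1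
    have e : ((2⁻¹ : ℝ) • B + (2⁻¹ : ℝ) • C) δ = (2⁻¹ : ℝ) • (B δ + C δ) := by
      rw [smul_add]; rfl
    rw [e, norm_smul, Real.norm_of_nonneg (by norm_num)] at h2
    have h3 := parallelogram_law_with_norm ℂ (B δ) (C δ)
    have h4 : (2 * m) ^ 2 ≤ ‖B δ + C δ‖ ^ 2 := by
      apply pow_le_pow_left₀ (by linarith)
      linarith
    nlinarith
  have hex : ∀ n : ℕ, ∃ B ∈ av φ A, ‖B δ‖ < m + 1 / ((n : ℝ) + 1) := by
    intro n
    have hpos : (0 : ℝ) < 1 / ((n : ℝ) + 1) := by positivity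
    obtain ⟨_, ⟨B, hB, rfl⟩, h⟩ := Real.lt_sInf_add_pos hNne hpos
    exact ⟨B, hB, h⟩
  choose B hB hBn using hex
  have hlim : Tendsto (fun n : ℕ => m + 1 / ((n : ℝ) + 1)) atTop (𝓝 m) := by
    have := tendsto_one_div_add_atTop_nhds_zero_nat (𝕜 := ℝ)
    simpa using this.const_add m
  have hBlim : Tendsto (fun n => ‖B n δ‖) atTop (𝓝 m) :=
    tendsto_of_tendsto_of_tendsto_of_le_of_le tendsto_const_nhds hlim (fun n => hmle _ (hB n))
      (fun n => (hBn n).le)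
  have hsq : ∀ e > 0, ∃ K, ∀ n ≥ K, ‖B n δ‖ ^ 2 < m ^ 2 + e := by
    intro e he
    have h1 : Tendsto (fun n => ‖B n δ‖ ^ 2) atTop (𝓝 (m ^ 2)) := hBlim.pow 2
    obtain ⟨K, hK⟩ := eventually_atTop.1 (h1.eventually (gt_mem_nhds (show m ^ 2 < m ^ 2 + e by linarith)))
    exact ⟨K, hK⟩
  have hCau : ∀ e > 0, ∃ K, ∀ n ≥ K, ∀ n' ≥ K, ‖B n δ - B n' δ‖ ≤ e := by
    intro e he
    obtain ⟨K, hK⟩ := hsq (e ^ 2 / 4) (by positivity)
    refine ⟨K, fun n hn n' hn' => ?_⟩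
    have h1 := key _ (hB n) _ (hB n')
    have h2 := hK n hn
    have h3 := hK n' hn'
    have h4 : ‖B n δ - B n' δ‖ ^ 2 ≤ e ^ 2 := by linarith
    exact (sq_le_sq₀ (norm_nonneg _) he.le).1 h4
  have hCj : ∀ k : F2, ∀ e > 0, ∃ K, ∀ n ≥ K, ‖cj φ k (B n) δ - B n δ‖ ≤ e := by
    intro k e he
    obtain ⟨K, hK⟩ := hsq (e ^ 2 / 4) (by positivity)
    refine ⟨K, fun n hn => ?_⟩
    have h1 := key _ (cj_av φ k (hB n)) _ (hB n)
    rw [norm_cj φ hS hP k (hgood (hB n)).mem] at h1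
    have h2 := hK n hn
    have h4 : ‖cj φ k (B n) δ - B n δ‖ ^ 2 ≤ e ^ 2 := by linarith
    exact (sq_le_sq₀ (norm_nonneg _) he.le).1 h4
  have hdiff : ∀ C ∈ av φ A, ∀ D ∈ av φ A, P (C - D) ∧ ‖C - D‖ ≤ 2 * ‖A‖ := by
    intro C hC D hD
    refine ⟨hS.sub (hgood hC).mem (hgood hD).mem, (norm_sub_le _ _).trans ?_⟩
    have h1 := (hgood hC).le
    have h2 := (hgood hD).le
    linarith
  have hCauf : ∀ f : E, CauchySeq (fun n => B n f) := by
    intro f
    rw [Metric.cauchySeq_iff]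
    intro e he
    obtain ⟨η', hη', hd⟩ := hS.dom f (2 * ‖A‖) (e / 2) (by positivity)
    obtain ⟨K, hK⟩ := hCau η' hη'
    refine ⟨K, fun n hn n' hn' => ?_⟩
    rw [dist_eq_norm]
    obtain ⟨h1, h2⟩ := hdiff _ (hB n) _ (hB n')
    have h3 := hd _ h1 h2 (hK n hn n' hn')
    have h4 : (B n - B n') f = B n f - B n' f := rfl
    rw [h4] at h3
    linarith
  have hex2 : ∀ f : E, ∃ y, Tendsto (fun n => B n f) atTop (𝓝 y) :=
    fun f => cauchySeq_tendsto_of_complete (hCauf f)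
  choose T0 hT0 using hex2
  set T : E →L[ℂ] E := continuousLinearMapOfTendsto (l := atTop) B (f := T0)
    (tendsto_pi_nhds.2 hT0) with hT
  have hTf : ∀ f, Tendsto (fun n => B n f) atTop (𝓝 (T f)) := hT0
  have hTS : ∀ S : E →L[ℂ] E, (∀ w, Commute S (U φ w)) → Commute S T := by
    intro S hSc
    refine ContinuousLinearMap.ext fun f => ?_
    show S (T f) = T (S f)
    have h1 : Tendsto (fun n => S (B n f)) atTop (𝓝 (S (T f))) :=
      (S.continuous.tendsto _).comp (hTf f)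
    have h2 := hTf (S f)
    have h3 : (fun n => S (B n f)) = fun n => B n (S f) := by
      funext n
      exact congrArg (fun L : E →L[ℂ] E => L f) ((hgood (hB n)).comm S hSc)
    rw [h3] at h1
    exact tendsto_nhds_unique h1 h2
  have hTU : ∀ w, Commute T (U φ w) := by
    intro k
    have h0 : ∀ f, cj φ k T f = T f := by
      intro f
      have h1 : Tendsto (fun n => cj φ k (B n) f) atTop (𝓝 (cj φ k T f)) :=
        ((U φ k).continuous.tendsto _).comp (hTf (U φ k⁻¹ f))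
      have h2 := hTf f
      have h3 : Tendsto (fun n => cj φ k (B n) f - B n f) atTop (𝓝 0) := by
        rw [Metric.tendsto_atTop]
        intro e he
        obtain ⟨η', hη', hd⟩ := hS.dom f (2 * ‖A‖) (e / 2) (by positivity)
        obtain ⟨K, hK⟩ := hCj k η' hη'
        refine ⟨K, fun n hn => ?_⟩
        rw [dist_zero_right]
        obtain ⟨h1, h2⟩ := hdiff _ (cj_av φ k (hB n)) _ (hB n)
        have h3 := hd _ h1 h2 (hK n hn)
        have h4 : (cj φ k (B n) - B n) f = cj φ k (B n) f - B n f := rfl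
        rw [h4] at h3
        linarith
      have h4 := h3.add h2
      simp only [sub_add_cancel, zero_add] at h4
      exact tendsto_nhds_unique h1 h4
    have h1 : cj φ k T = T := ContinuousLinearMap.ext h0
    show T * U φ k = U φ k * T
    calc T * U φ k = cj φ k T * U φ k := by rw [h1]
      _ = U φ k * T * (U φ k⁻¹ * U φ k) := by simp only [cj, mul_assoc]
      _ = U φ k * T := by rw [U_inv_mul, mul_one]
  obtain ⟨c, hc'⟩ := hfac T hTU hTS
  have hc2 : c = ⟪δ, A δ⟫_ℂ := by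
    have h1 : Tendsto (fun n => ⟪δ, B n δ⟫_ℂ) atTop (𝓝 ⟪δ, T δ⟫_ℂ) :=
      tendsto_const_nhds.inner (hTf δ)
    have h2 : (fun n => ⟪δ, B n δ⟫_ℂ) = fun _ => ⟪δ, A δ⟫_ℂ := by
      funext n
      exact (hgood (hB n)).tau
    rw [h2] at h1
    have h3 := tendsto_nhds_unique h1 tendsto_const_nhds
    rw [← h3, hc']
    show c = ⟪δ, c • δ⟫_ℂ
    rw [inner_smul_right, inner_self_eq_norm_sq_to_K, hS.norm_one]
    simp
  have h1 : Tendsto (fun n => ‖B n δ - ⟪δ, A δ⟫_ℂ • δ‖) atTop (𝓝 0) := by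
    have h2 := (hTf δ).sub_const (⟪δ, A δ⟫_ℂ • δ)
    have h3 : T δ - ⟪δ, A δ⟫_ℂ • δ = 0 := by
      rw [hc', hc2]
      show ⟪δ, A δ⟫_ℂ • δ - ⟪δ, A δ⟫_ℂ • δ = 0
      rw [sub_self]
    rw [h3] at h2
    simpa using h2.norm
  obtain ⟨n, hn⟩ := (h1.eventually (gt_mem_nhds hη)).exists
  exact ⟨B n, hB n, hn⟩

omit hS hP in
/-- passing from an average to one of its members -/
theorem pick {A : E →L[ℂ] E} {B : E →L[ℂ] E} (h : B ∈ av φ A) (x : E) :
    ∃ S : Finset F2, ∀ k : F2, ∃ h ∈ S,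
      (⟪x, cj φ (k * h) A δ⟫_ℂ).re ≤ (⟪x, cj φ k B δ⟫_ℂ).re := by
  classical
  have : av φ A ⊆ {B | ∃ S : Finset F2, ∀ k : F2, ∃ h ∈ S,
      (⟪x, cj φ (k * h) A δ⟫_ℂ).re ≤ (⟪x, cj φ k B δ⟫_ℂ).re} := by
    refine convexHull_min ?_ ?_
    · rintro _ ⟨l, rfl⟩
      refine ⟨{l}, fun k => ⟨l, Finset.mem_singleton_self l, ?_⟩⟩
      show _ ≤ (⟪x, cj φ k (cj φ l A) δ⟫_ℂ).re
      rw [cj_cj]
    · rintro C ⟨S, hS⟩ D ⟨S', hS'⟩ a b ha hb hab
      refine ⟨S ∪ S', fun k => ?_⟩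
      obtain ⟨h, hh, h1⟩ := hS k
      obtain ⟨h', hh', h1'⟩ := hS' k
      have e : (⟪x, cj φ k (a • C + b • D) δ⟫_ℂ).re =
          a * (⟪x, cj φ k C δ⟫_ℂ).re + b * (⟪x, cj φ k D δ⟫_ℂ).re := by
        rw [cj_add, cj_rsmul, cj_rsmul]
        have e : (a • cj φ k C + b • cj φ k D) δ =
          (a : ℂ) • (cj φ k C δ) + (b : ℂ) • (cj φ k D δ) := rfl
        rw [e, inner_add_right, inner_smul_right, inner_smul_right]
        simp
      rw [e]
      rcases le_total (⟪x, cj φ (k * h) A δ⟫_ℂ).re (⟪x, cj φ (k * h') A δ⟫_ℂ).re with hle | hle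
      · refine ⟨h, Finset.mem_union_left _ hh, ?_⟩
        have : a * (⟪x, cj φ (k * h) A δ⟫_ℂ).re + b * (⟪x, cj φ (k * h) A δ⟫_ℂ).re =
          (⟪x, cj φ (k * h) A δ⟫_ℂ).re := by rw [← add_mul, hab, one_mul]
        nlinarith [mul_le_mul_of_nonneg_left h1 ha, mul_le_mul_of_nonneg_left (hle.trans h1') hb]
      · refine ⟨h', Finset.mem_union_right _ hh', ?_⟩
        have : a * (⟪x, cj φ (k * h') A δ⟫_ℂ).re + b * (⟪x, cj φ (k * h') A δ⟫_ℂ).re =
          (⟪x, cj φ (k * h') A δ⟫_ℂ).re := by rw [← add_mul, hab, one_mul]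
        nlinarith [mul_le_mul_of_nonneg_left h1' hb, mul_le_mul_of_nonneg_left (hle.trans h1) ha]
  exact this h

theorem norm_mul_U {Z : E →L[ℂ] E} (hZ : P Z) (a : F2) : ‖Z (U φ a δ)‖ = ‖Z δ‖ := by
  have h := norm_cj φ hS hP a⁻¹ hZ
  have e : cj φ a⁻¹ Z δ = U φ a⁻¹ (Z (U φ a δ)) := by
    simp only [cj, inv_inv, mul_app]
  rw [e, U_norm_apply] at h
  exact h

end

end

end Pool.Agent.Helper9.UGap
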