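import Mathlib
import Pool.Agent.Helper9.UGap.Gap

/-!
The commutator estimate.
-/

namespace Pool.Agent.Helper9.UGap

open scoped InnerProductSpace ComplexConjugate
open Filter Topology

noncomputable section

variable {E : Type*} [NormedAddCommGroup E] [InnerProductSpace ℂ E] [CompleteSpace E]
variable (φ : F2 →* unitary (E →L[ℂ] E))

/-- `‖T δ‖²` as a trace -/
theorem norm_sq_tau (δ : E) (T : E →L[ℂ] E) : (‖T δ‖ : ℂ) ^ 2 = ⟪δ, (star T * T) δ⟫_ℂ := by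
  rw [mul_app, ← inner_star]
  exact (inner_self_eq_norm_sq_to_K (𝕜 := ℂ) (T δ)).symm

/-- the centred operator of a word -/
def X (δ : E) (g : F2) : E →L[ℂ] E := U φ g - ⟪δ, U φ g δ⟫_ℂ • 1

/-- its absolute value squared -/
def AA (δ : E) (g : F2) : E →L[ℂ] E := star (X φ δ g) * X φ δ g

theorem tau_inv (δ : E) (g : F2) : ⟪δ, U φ g⁻¹ δ⟫_ℂ = conj ⟪δ, U φ g δ⟫_ℂ := by
  rw [← U_star, ← inner_star, inner_conj_symm]

theorem X_star (δ : E) (g : F2) :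
    star (X φ δ g) = U φ g⁻¹ - (conj ⟪δ, U φ g δ⟫_ℂ) • (1 : E →L[ℂ] E) := by
  unfold X
  rw [star_sub, U_star, star_smul, star_one]
  rfl

theorem AA_eq (δ : E) (g : F2) : AA φ δ g =
    (1 + ⟪δ, U φ g δ⟫_ℂ * conj ⟪δ, U φ g δ⟫_ℂ) • (1 : E →L[ℂ] E)
      - ⟪δ, U φ g δ⟫_ℂ • U φ g⁻¹ - (conj ⟪δ, U φ g δ⟫_ℂ) • U φ g := by
  unfold AA
  rw [X_star]
  unfold X
  simp only [mul_sub, sub_mul, U_inv_mul, mul_smul_comm, smul_mul_assoc, mul_one, one_mul]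
  module

theorem AA_eq' (δ : E) (g : F2) : AA φ δ g = X φ δ g * star (X φ δ g) := by
  rw [AA_eq, X_star]
  unfold X
  simp only [mul_sub, sub_mul, U_mul_inv, mul_smul_comm, smul_mul_assoc, mul_one, one_mul]
  module

theorem AA_star (δ : E) (g : F2) : star (AA φ δ g) = AA φ δ g := by
  unfold AA
  rw [star_mul, star_star]

theorem AA_comm (δ : E) (g : F2) (S : E →L[ℂ] E) (hS : ∀ w, Commute S (U φ w)) :
    Commute S (AA φ δ g) := by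
  rw [AA_eq]
  exact (((Commute.one_right S).smul_right _).sub_right ((hS _).smul_right _)).sub_right
    ((hS _).smul_right _)

section
variable {P : (E →L[ℂ] E) → Prop} {δ : E} (hS : Std P δ) (hP : ∀ w, P (U φ w))
include hS hP

theorem P_X (g : F2) : P (X φ δ g) := hS.sub (hP g) (hS.smul _ hS.one)

theorem P_AA (g : F2) : P (AA φ δ g) :=
  hS.mul (hS.star (P_X φ hS hP g)) (P_X φ hS hP g)

omit hP in
theorem tau_AA (g : F2) : ⟪δ, AA φ δ g δ⟫_ℂ = ((1 - ‖⟪δ, U φ g δ⟫_ℂ‖ ^ 2 : ℝ) : ℂ) := by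
  have e : AA φ δ g δ = (1 + ⟪δ, U φ g δ⟫_ℂ * conj ⟪δ, U φ g δ⟫_ℂ) • δ
      - ⟪δ, U φ g δ⟫_ℂ • U φ g⁻¹ δ - (conj ⟪δ, U φ g δ⟫_ℂ) • U φ g δ := by
    rw [AA_eq]; rfl
  rw [e, inner_sub_right, inner_sub_right, inner_smul_right, inner_smul_right, inner_smul_right,
    tau_inv, inner_self_eq_norm_sq_to_K, hS.norm_one]
  have h2 : ⟪δ, U φ g δ⟫_ℂ * conj ⟪δ, U φ g δ⟫_ℂ = ((‖⟪δ, U φ g δ⟫_ℂ‖ ^ 2 : ℝ) : ℂ) := by
    rw [Complex.mul_conj, Complex.normSq_eq_norm_sq]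
  rw [mul_comm (conj _) _, h2]
  push_cast
  ring_nf

theorem norm_XX (g k : F2) : ‖(X φ δ g * cj φ k (X φ δ g)) δ‖ ^ 2 =
    (⟪AA φ δ g δ, cj φ k (AA φ δ g) δ⟫_ℂ).re := by
  set Y := X φ δ g with hY
  set Z := cj φ k Y with hZ
  have hPY : P Y := P_X φ hS hP g
  have hPZ : P Z := P_cj φ hS hP k hPY
  have h1 : ((‖(Y * Z) δ‖ : ℂ)) ^ 2 = ⟪AA φ δ g δ, cj φ k (AA φ δ g) δ⟫_ℂ := by
    rw [norm_sq_tau, inner_star, AA_star]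
    have h2 : star (Y * Z) * (Y * Z) = star Z * (AA φ δ g * Z) := by
      rw [star_mul]; simp only [AA, mul_assoc, ← hY]
    rw [h2, mul_app, hS.trace (hS.star hPZ) (hS.mul (P_AA φ hS hP g) hPZ)]
    have h3 : cj φ k (AA φ δ g) = Z * star Z := by
      rw [AA_eq', cj_mul, hZ, cj_star]
    rw [h3]
    rfl
  rw [← h1]
  norm_cast

theorem norm_XX' (g k : F2) : ‖(cj φ k (X φ δ g) * X φ δ g) δ‖ ^ 2 =
    (⟪AA φ δ g δ, cj φ k (AA φ δ g) δ⟫_ℂ).re := by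
  set Y := X φ δ g with hY
  set Z := cj φ k Y with hZ
  have hPY : P Y := P_X φ hS hP g
  have hPZ : P Z := P_cj φ hS hP k hPY
  have h1 : ((‖(Z * Y) δ‖ : ℂ)) ^ 2 = ⟪AA φ δ g δ, cj φ k (AA φ δ g) δ⟫_ℂ := by
    rw [norm_sq_tau, inner_star, AA_star]
    have h3 : cj φ k (AA φ δ g) = star Z * Z := by
      unfold AA
      rw [cj_mul, hZ, cj_star]
    have h2 : star (Z * Y) * (Z * Y) = star Y * (cj φ k (AA φ δ g) * Y) := by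
      rw [star_mul, h3]; simp only [mul_assoc]
    rw [h2, mul_app, hS.trace (hS.star hPY) (hS.mul (P_cj φ hS hP k (P_AA φ hS hP g)) hPY)]
    have h4 : (cj φ k (AA φ δ g) * Y) ((star Y) δ) = cj φ k (AA φ δ g) (AA φ δ g δ) := by
      rw [AA_eq']; rfl
    rw [h4, hS.trace (P_cj φ hS hP k (P_AA φ hS hP g)) (P_AA φ hS hP g)]
  rw [← h1]
  norm_cast

/-- the commutator estimate -/
theorem comm_le (g k : F2) :
    ‖U φ (g * (k * g * k⁻¹) * g⁻¹ * (k * g * k⁻¹)⁻¹) δ - δ‖ ^ 2 ≤ 4 * (⟪AA φ δ g δ, cj φ k (AA φ δ g) δ⟫_ℂ).re := by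
  set g' := k * g * k⁻¹ with hg'
  set Y := X φ δ g with hY
  set Z := cj φ k Y with hZ
  have hPY : P Y := P_X φ hS hP g
  have hPZ : P Z := P_cj φ hS hP k hPY
  have hZ' : Z = U φ g' - ⟪δ, U φ g δ⟫_ℂ • 1 := by
    rw [hZ, hY, X, cj_sub, cj_smul, cj_one, cj_U]
  have h1 : U φ g * U φ g' - U φ g' * U φ g = Y * Z - Z * Y := by
    rw [hZ', hY]
    unfold X
    simp only [mul_sub, sub_mul, mul_smul_comm, smul_mul_assoc, mul_one, one_mul]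
    module
  have h2 : U φ (g * g' * g⁻¹ * g'⁻¹) δ - δ = (Y * Z - Z * Y) (U φ (g⁻¹ * g'⁻¹) δ) := by
    rw [← h1]
    have h3 : (U φ g * U φ g' - U φ g' * U φ g) * U φ (g⁻¹ * g'⁻¹) = U φ (g * g' * g⁻¹ * g'⁻¹) - 1 := by
      rw [sub_mul, ← U_mul, ← U_mul, ← U_mul, ← U_mul, ← U_one φ]
      congr 1
      · congr 1
        group
      · congr 1
        group
    have h4 := congrArg (fun L : E →L[ℂ] E => L δ) h3
    exact h4.symm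
  have hPc : P (Y * Z - Z * Y) := hS.sub (hS.mul hPY hPZ) (hS.mul hPZ hPY)
  rw [h2, norm_mul_U φ hS hP hPc]
  have h5 : (Y * Z - Z * Y) δ = (Y * Z) δ - (Z * Y) δ := rfl
  rw [h5]
  have h6 := norm_sub_le ((Y * Z) δ) ((Z * Y) δ)
  have h7 := norm_XX φ hS hP g k
  have h8 := norm_XX' φ hS hP g k
  rw [← hY, ← hZ] at h7 h8
  have h9 : ‖(Y * Z) δ‖ = ‖(Z * Y) δ‖ :=
    (sq_eq_sq₀ (norm_nonneg _) (norm_nonneg _)).1 (h7.trans h8.symm)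
  rw [← h7]
  rw [← h9] at h6
  have h10 := norm_nonneg ((Y * Z) δ - (Z * Y) δ)
  nlinarith [norm_nonneg ((Y * Z) δ)]

/-- a conjugate whose commutator with `g` is nontrivial and close to `1` -/
theorem exists_comm (hfac : ∀ T : E →L[ℂ] E, (∀ w, Commute T (U φ w)) →
      (∀ S : E →L[ℂ] E, (∀ w, Commute S (U φ w)) → Commute S T) → ∃ c : ℂ, T = c • 1)
    {g : F2} (hg : g ≠ 1) {η : ℝ} (hη : 0 < η) :
    ∃ c : F2, c ≠ 1 ∧ ‖U φ c δ - δ‖ ^ 2 ≤ 4 * (1 - ‖⟪δ, U φ g δ⟫_ℂ‖ ^ 2) ^ 2 + η := by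
  classical
  set A := AA φ δ g with hA
  set x : ℝ := 1 - ‖⟪δ, U φ g δ⟫_ℂ‖ ^ 2 with hx
  have htA : ⟪δ, A δ⟫_ℂ = (x : ℂ) := tau_AA φ hS g
  have hPA : P A := P_AA φ hS hP g
  set η₀ : ℝ := η / (4 * (‖A δ‖ + 1)) with hη₀
  have hη₀pos : 0 < η₀ := by positivity
  obtain ⟨B, hB, hBn⟩ := almost_scalar φ hS hP hPA (AA_comm φ δ g) hfac hη₀pos
  have hgB := good_av φ hS hP hPA (AA_comm φ δ g) hB
  obtain ⟨S, hSp⟩ := pick (δ := δ) φ hB (A δ)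
  obtain ⟨k, hk⟩ := exists_noncomm hg S
  obtain ⟨h, hh, hle⟩ := hSp k
  refine ⟨g * ((k * h) * g * (k * h)⁻¹) * g⁻¹ * ((k * h) * g * (k * h)⁻¹)⁻¹, ?_, ?_⟩
  · intro h1
    refine hk h hh ?_
    show g * ((k * h) * g * (k * h)⁻¹) = ((k * h) * g * (k * h)⁻¹) * g
    have h2 := mul_inv_eq_one.1 h1
    exact mul_inv_eq_iff_eq_mul.1 h2
  · refine (comm_le φ hS hP g (k * h)).trans ?_
    have h2 : (⟪A δ, cj φ k B δ⟫_ℂ).re ≤ x ^ 2 + ‖A δ‖ * η₀ := by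
      have h3 : cj φ k B δ = (x : ℂ) • δ + cj φ k (B - (x : ℂ) • 1) δ := by
        have h4 : cj φ k (B - (x : ℂ) • 1) = cj φ k B - (x : ℂ) • 1 := by
          rw [cj_sub, cj_smul, cj_one]
        rw [h4]
        show cj φ k B δ = (x : ℂ) • δ + (cj φ k B δ - (x : ℂ) • δ)
        abel
      have hPd : P (B - (x : ℂ) • 1) := hS.sub hgB.mem (hS.smul _ hS.one)
      have h5 : ‖cj φ k (B - (x : ℂ) • 1) δ‖ ≤ η₀ := by
        rw [norm_cj φ hS hP k hPd]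
        have h6 : (B - (x : ℂ) • 1) δ = B δ - ⟪δ, A δ⟫_ℂ • δ := by
          rw [htA]; rfl
        rw [h6]
        exact hBn.le
      rw [h3, inner_add_right, Complex.add_re, inner_smul_right]
      have h7 : ⟪A δ, δ⟫_ℂ = (x : ℂ) := by
        rw [← inner_conj_symm, htA, Complex.conj_ofReal]
      rw [h7]
      have h8 : (⟪A δ, cj φ k (B - (x : ℂ) • 1) δ⟫_ℂ).re ≤ ‖A δ‖ * η₀ := by
        calc (⟪A δ, cj φ k (B - (x : ℂ) • 1) δ⟫_ℂ).re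
            ≤ ‖⟪A δ, cj φ k (B - (x : ℂ) • 1) δ⟫_ℂ‖ := Complex.re_le_norm _
          _ ≤ ‖A δ‖ * ‖cj φ k (B - (x : ℂ) • 1) δ‖ := norm_inner_le_norm _ _
          _ ≤ ‖A δ‖ * η₀ := by gcongr
      have h9 : ((x : ℂ) * (x : ℂ)).re = x ^ 2 := by
        rw [← Complex.ofReal_mul, Complex.ofReal_re]; ring
      rw [h9]
      linarith
    have h10 : ‖A δ‖ * η₀ ≤ η / 4 := by
      rw [hη₀, mul_div_assoc', div_le_div_iff₀ (by positivity) (by norm_num)]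
      nlinarith [norm_nonneg (A δ)]
    have h11 := hle.trans h2
    linarith

omit hS hP in
theorem re_tau (hδ : ‖δ‖ = 1) (c : F2) :
    (⟪δ, U φ c δ⟫_ℂ).re = 1 - ‖U φ c δ - δ‖ ^ 2 / 2 := by
  have h1 := norm_sub_sq (𝕜 := ℂ) (U φ c δ) δ
  rw [U_norm_apply, hδ, inner_re_symm] at h1
  have h2 : RCLike.re (⟪δ, U φ c δ⟫_ℂ) = (⟪δ, U φ c δ⟫_ℂ).re := rfl
  rw [h2] at h1
  linarith

/-- one step: a trace closer to `1` in absolute value -/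
theorem step (hfac : ∀ T : E →L[ℂ] E, (∀ w, Commute T (U φ w)) →
      (∀ S : E →L[ℂ] E, (∀ w, Commute S (U φ w)) → Commute S T) → ∃ c : ℂ, T = c • 1)
    {g : F2} (hg : g ≠ 1) (hpos : 0 < 1 - ‖⟪δ, U φ g δ⟫_ℂ‖ ^ 2)
    (hle : 1 - ‖⟪δ, U φ g δ⟫_ℂ‖ ^ 2 ≤ 13 / 49) :
    ∃ c : F2, c ≠ 1 ∧
      1 - ‖⟪δ, U φ c δ⟫_ℂ‖ ^ 2 ≤ 99 / 100 * (1 - ‖⟪δ, U φ g δ⟫_ℂ‖ ^ 2) := by
  set x : ℝ := 1 - ‖⟪δ, U φ g δ⟫_ℂ‖ ^ 2 with hx
  obtain ⟨c, hc, hd⟩ := exists_comm φ hS hP hfac hg (η := x / 1000) (by positivity)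
  refine ⟨c, hc, ?_⟩
  have h1 := re_tau φ hS.norm_one c
  rw [← hx] at hd
  set d : ℝ := ‖U φ c δ - δ‖ ^ 2 with hdd
  have hd0 : 0 ≤ d := by positivity
  have hD : 4 * x ^ 2 + x / 1000 ≤ 1 := by nlinarith
  have h2 : (⟪δ, U φ c δ⟫_ℂ).re ≤ ‖⟪δ, U φ c δ⟫_ℂ‖ := Complex.re_le_norm _
  have h3 : (1 - d / 2) ^ 2 ≤ ‖⟪δ, U φ c δ⟫_ℂ‖ ^ 2 := by
    apply pow_le_pow_left₀ (by linarith)
    linarith
  have h4 : 1 - ‖⟪δ, U φ c δ⟫_ℂ‖ ^ 2 ≤ d - d ^ 2 / 4 := by nlinarith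
  set D : ℝ := 4 * x ^ 2 + x / 1000 with hDD
  have h5 : d - d ^ 2 / 4 ≤ D - D ^ 2 / 4 := by nlinarith
  have h6 : D - D ^ 2 / 4 ≤ 4 * x ^ 2 + x / 1000 - 4 * x ^ 4 := by
    have : 16 * x ^ 4 ≤ D ^ 2 := by
      have e : D ^ 2 = 16 * x ^ 4 + 8 * x ^ 2 * (x / 1000) + (x / 1000) ^ 2 := by
        rw [hDD]; ring
      rw [e]
      have : 0 ≤ 8 * x ^ 2 * (x / 1000) + (x / 1000) ^ 2 := by positivity
      linarith
    linarith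
  have h7 : 4 * x - 4 * x ^ 3 ≤ 989 / 1000 := by
    have h8 : 0 ≤ (13 / 49 - x) * (1 - (13 / 49) ^ 2 - 13 / 49 * x - x ^ 2) := by
      apply mul_nonneg (by linarith)
      nlinarith
    nlinarith
  have h8 : 4 * x ^ 2 + x / 1000 - 4 * x ^ 4 ≤ 99 / 100 * x := by
    have := mul_le_mul_of_nonneg_left h7 hpos.le
    nlinarith
  linarith

/-- **The gap theorem**, abstract form. -/
theorem core (hfac : ∀ T : E →L[ℂ] E, (∀ w, Commute T (U φ w)) →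
      (∀ S : E →L[ℂ] E, (∀ w, Commute S (U φ w)) → Commute S T) → ∃ c : ℂ, T = c • 1)
    {ε : ℝ} (hε : 0 < ε) (hdisc : ∀ w : F2, w ≠ 1 → ε ≤ ‖U φ w δ - δ‖)
    {w : F2} (hw : w ≠ 1) : ‖⟪δ, U φ w δ⟫_ℂ‖ ≤ 6 / 7 := by
  by_contra hcon
  push Not at hcon
  have hnn : ∀ g : F2, 0 ≤ 1 - ‖⟪δ, U φ g δ⟫_ℂ‖ ^ 2 := by
    intro g
    have h1 := norm_inner_le_norm (𝕜 := ℂ) δ (U φ g δ)
    rw [U_norm_apply, hS.norm_one, mul_one] at h1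
    have h2 := norm_nonneg (⟪δ, U φ g δ⟫_ℂ)
    nlinarith
  have hlow : ∀ g : F2, g ≠ 1 → ε / 2 ≤ 1 - ‖⟪δ, U φ g δ⟫_ℂ‖ ^ 2 := by
    intro g hg
    have h1 : ε ^ 2 ≤ 4 * (1 - ‖⟪δ, U φ g δ⟫_ℂ‖ ^ 2) ^ 2 := by
      refine le_of_forall_pos_le_add fun η hη => ?_
      obtain ⟨c, hc, hd⟩ := exists_comm φ hS hP hfac hg hη
      refine le_trans ?_ hd
      exact pow_le_pow_left₀ hε.le (hdisc c hc) 2
    have h2 := hnn g
    nlinarith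
  set S : Set ℝ := {r | ∃ g : F2, g ≠ 1 ∧ r = 1 - ‖⟪δ, U φ g δ⟫_ℂ‖ ^ 2} with hSS
  have hSne : S.Nonempty := ⟨_, w, hw, rfl⟩
  have hSb : BddBelow S := ⟨ε / 2, by rintro _ ⟨g, hg, rfl⟩; exact hlow g hg⟩
  have hinf : ε / 2 ≤ sInf S := le_csInf hSne (by rintro _ ⟨g, hg, rfl⟩; exact hlow g hg)
  have hwx : 1 - ‖⟪δ, U φ w δ⟫_ℂ‖ ^ 2 < 13 / 49 := by nlinarith
  have hinfw : sInf S ≤ 1 - ‖⟪δ, U φ w δ⟫_ℂ‖ ^ 2 := csInf_le hSb ⟨w, hw, rfl⟩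
  have hlt : sInf S < 13 / 49 := lt_of_le_of_lt hinfw hwx
  have hlt2 : sInf S < min (13 / 49) (sInf S * (100 / 99)) :=
    lt_min hlt (by nlinarith)
  obtain ⟨_, ⟨g, hg, rfl⟩, hgl⟩ := exists_lt_of_csInf_lt hSne hlt2
  have h1 := (lt_min_iff.1 hgl).1
  have h2 := (lt_min_iff.1 hgl).2
  obtain ⟨c, hc, hcx⟩ := step φ hS hP hfac hg (by linarith [hlow g hg]) h1.le
  have h3 : sInf S ≤ 1 - ‖⟪δ, U φ c δ⟫_ℂ‖ ^ 2 := csInf_le hSb ⟨c, hc, rfl⟩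
  linarith

end

end

end Pool.Agent.Helper9.UGap
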