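import Mathlib
import Pool.Agent.Helper9.UGap.Gap2

/-!
The group von Neumann algebra `L(G)` on `ℓ²(G)`.
-/

namespace Pool.Agent.Helper9.UGap

open scoped InnerProductSpace ComplexConjugate
open Filter Topology

noncomputable section

variable {G : Type*} [Group G]

/-- `T` commutes with the right translations of `ℓ²(G)`, i.e. `T` lies in `L(G)`. -/
def InL (T : lp (fun _ : G => ℂ) 2 →L[ℂ] lp (fun _ : G => ℂ) 2) : Prop :=
  ∀ (g : G) (f f' : lp (fun _ : G => ℂ) 2),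
    (∀ h : G, f' h = f (h * g)) → ∀ h : G, (T f') h = (T f) (h * g)

theorem InL.add {S T : lp (fun _ : G => ℂ) 2 →L[ℂ] lp (fun _ : G => ℂ) 2} (hS : InL S)
    (hT : InL T) : InL (S + T) := by
  intro g f f' h k
  show (S f' + T f') k = (S f + T f) (k * g)
  simp only [lp.coeFn_add, Pi.add_apply, hS g f f' h k, hT g f f' h k]

theorem InL.smul (c : ℂ) {T : lp (fun _ : G => ℂ) 2 →L[ℂ] lp (fun _ : G => ℂ) 2}
    (hT : InL T) : InL (c • T) := by
  intro g f f' h k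
  show (c • T f') k = (c • T f) (k * g)
  simp only [lp.coeFn_smul, Pi.smul_apply, hT g f f' h k]

theorem InL.mul {S T : lp (fun _ : G => ℂ) 2 →L[ℂ] lp (fun _ : G => ℂ) 2} (hS : InL S)
    (hT : InL T) : InL (S * T) := by
  intro g f f' h k
  exact hS g (T f) (T f') (hT g f f' h) k

theorem InL.one : InL (1 : lp (fun _ : G => ℂ) 2 →L[ℂ] lp (fun _ : G => ℂ) 2) :=
  fun _ _ _ h k => h k

section
variable [DecidableEq G]

/-- the vector `δ₁` -/
def dl : lp (fun _ : G => ℂ) 2 := lp.single 2 (1 : G) (1 : ℂ)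

theorem dl_norm : ‖(dl : lp (fun _ : G => ℂ) 2)‖ = 1 := by
  unfold dl
  rw [lp.norm_single (by norm_num)]
  simp

theorem inner_dl (f : lp (fun _ : G => ℂ) 2) : ⟪(dl : lp (fun _ : G => ℂ) 2), f⟫_ℂ = f 1 := by
  unfold dl
  rw [lp.inner_single_left]
  simp

omit [Group G] in
theorem single_eq (a : G) (c : ℂ) : (lp.single 2 a c : lp (fun _ : G => ℂ) 2) =
    c • (lp.single 2 a (1 : ℂ) : lp (fun _ : G => ℂ) 2) := by
  rw [← lp.single_smul]
  simp

theorem InL.single {T : lp (fun _ : G => ℂ) 2 →L[ℂ] lp (fun _ : G => ℂ) 2} (hT : InL T)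
    (a h : G) : (T (lp.single 2 a (1 : ℂ))) h = (T dl) (h * a⁻¹) := by
  refine hT a⁻¹ dl (lp.single 2 a (1 : ℂ)) (fun k => ?_) h
  unfold dl
  rw [lp.single_apply, lp.single_apply]
  by_cases hk : k = a
  · subst hk; simp
  · have : k * a⁻¹ ≠ 1 := fun h => hk (mul_inv_eq_one.1 h)
    rw [Pi.single_eq_of_ne hk, Pi.single_eq_of_ne this]

theorem InL.norm_single {T : lp (fun _ : G => ℂ) 2 →L[ℂ] lp (fun _ : G => ℂ) 2} (hT : InL T)
    (a : G) : ‖T (lp.single 2 a (1 : ℂ))‖ = ‖T dl‖ := by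
  have h2 : (0 : ℝ) < (2 : ENNReal).toReal := by norm_num
  have h3 := lp.norm_rpow_eq_tsum h2 (T (lp.single 2 a (1 : ℂ)))
  have h4 := lp.norm_rpow_eq_tsum h2 (T dl)
  have h5 : ∑' h : G, ‖(T (lp.single 2 a (1 : ℂ))) h‖ ^ (2 : ENNReal).toReal =
      ∑' h : G, ‖(T dl) h‖ ^ (2 : ENNReal).toReal := by
    rw [← (Equiv.mulRight a).tsum_eq]
    refine tsum_congr fun h => ?_
    rw [hT.single]
    show ‖(T dl) (h * a * a⁻¹)‖ ^ (2 : ENNReal).toReal = _
    rw [mul_inv_cancel_right]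
  rw [h5, ← h4] at h3
  exact Real.rpow_left_injOn h2.ne' (norm_nonneg _) (norm_nonneg _) h3

theorem InL.trace {S T : lp (fun _ : G => ℂ) 2 →L[ℂ] lp (fun _ : G => ℂ) 2} (hS : InL S)
    (hT : InL T) : (S (T dl)) 1 = (T (S dl)) 1 := by
  have key : ∀ {S T : lp (fun _ : G => ℂ) 2 →L[ℂ] lp (fun _ : G => ℂ) 2}, InL S → InL T →
      (S (T dl)) 1 = ∑' h : G, (T dl) h * (S dl) h⁻¹ := by
    intro S T hS hT
    have h1 := lp.hasSum_single (E := fun _ : G => ℂ) (p := 2) (by norm_num) (T dl)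
    have h2 := (h1.mapL S).mapL (innerSL ℂ (dl : lp (fun _ : G => ℂ) 2))
    simp only [innerSL_apply_apply, inner_dl] at h2
    rw [← h2.tsum_eq]
    refine tsum_congr fun h => ?_
    rw [single_eq, map_smul]
    show (T dl) h * (S (lp.single 2 h (1 : ℂ))) 1 = _
    rw [hS.single, one_mul]
  rw [key hS hT, key hT hS, ← (Equiv.inv G).tsum_eq]
  refine tsum_congr fun h => ?_
  show (T dl) h⁻¹ * (S dl) (h⁻¹)⁻¹ = _
  rw [inv_inv, mul_comm]

theorem InL.dom (f : lp (fun _ : G => ℂ) 2) (C ε : ℝ) (hε : 0 < ε) :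
    ∃ η > 0, ∀ D : lp (fun _ : G => ℂ) 2 →L[ℂ] lp (fun _ : G => ℂ) 2,
      InL D → ‖D‖ ≤ C → ‖D dl‖ ≤ η → ‖D f‖ ≤ ε := by
  set C' : ℝ := max C 1 with hC'
  have hC1 : 1 ≤ C' := le_max_right _ _
  have h1 := lp.hasSum_single (E := fun _ : G => ℂ) (p := 2) (by norm_num) f
  have h2 := h1.eventually (Metric.ball_mem_nhds f (show 0 < ε / (2 * C') by positivity))
  obtain ⟨F, hF⟩ := h2.exists
  set s : lp (fun _ : G => ℂ) 2 := ∑ a ∈ F, lp.single 2 a (f a) with hs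
  have hfs : ‖s - f‖ < ε / (2 * C') := by
    have := hF
    rwa [dist_eq_norm] at this
  set N : ℝ := ∑ a ∈ F, ‖f a‖ with hN
  have hN0 : 0 ≤ N := Finset.sum_nonneg fun a _ => norm_nonneg _
  refine ⟨ε / (2 * (N + 1)), by positivity, fun D hD hDC hDd => ?_⟩
  have h3 : ‖D s‖ ≤ N * ‖D dl‖ := by
    rw [hs, map_sum]
    refine (norm_sum_le _ _).trans ?_
    rw [hN, Finset.sum_mul]
    refine Finset.sum_le_sum fun a _ => ?_
    rw [single_eq, map_smul, norm_smul, hD.norm_single]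
  have h4 : N * ‖D dl‖ ≤ ε / 2 := by
    calc N * ‖D dl‖ ≤ N * (ε / (2 * (N + 1))) := by gcongr
      _ ≤ ε / 2 := by
        rw [mul_div_assoc', div_le_div_iff₀ (by positivity) (by norm_num)]
        nlinarith
  have h5 : ‖D (s - f)‖ ≤ ε / 2 := by
    calc ‖D (s - f)‖ ≤ ‖D‖ * ‖s - f‖ := D.le_opNorm _
      _ ≤ C' * (ε / (2 * C')) := by
        gcongr
        exact hDC.trans (le_max_left _ _)
      _ = ε / 2 := by field_simp
  have h6 : D f = D s - D (s - f) := by rw [map_sub]; abel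
  rw [h6]
  refine (norm_sub_le _ _).trans ?_
  linarith

theorem std_LG : Std (fun T : lp (fun _ : G => ℂ) 2 →L[ℂ] lp (fun _ : G => ℂ) 2 =>
    InL T ∧ InL (star T)) dl where
  norm_one := dl_norm
  one := ⟨InL.one, by rw [star_one]; exact InL.one⟩
  add := fun hS hT => ⟨hS.1.add hT.1, by rw [star_add]; exact hS.2.add hT.2⟩
  smul := fun c {T} hT => ⟨hT.1.smul c, by rw [star_smul]; exact hT.2.smul _⟩
  mul := fun hS hT => ⟨hS.1.mul hT.1, by rw [star_mul]; exact hT.2.mul hS.2⟩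
  star := fun hT => ⟨hT.2, by rw [star_star]; exact hT.1⟩
  trace := fun hS hT => by rw [inner_dl, inner_dl]; exact hS.1.trace hT.1
  dom := fun f C ε hε => by
    obtain ⟨η, hη, h⟩ := InL.dom f C ε hε
    exact ⟨η, hη, fun D hD => h D hD.1⟩

end

/-- **The gap theorem** for subgroups of the unitary group of `L(G)`. -/
theorem gap (φ : FreeGroup (Fin 2) →*
      ↥(unitary (lp (fun _ : G => ℂ) 2 →L[ℂ] lp (fun _ : G => ℂ) 2)))
    (hL : ∀ w, InL (φ w).1)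
    (hfac : ∀ T : lp (fun _ : G => ℂ) 2 →L[ℂ] lp (fun _ : G => ℂ) 2,
      (∀ w, Commute T (φ w).1) →
      (∀ S : lp (fun _ : G => ℂ) 2 →L[ℂ] lp (fun _ : G => ℂ) 2,
        (∀ w, Commute S (φ w).1) → Commute S T) → ∃ c : ℂ, T = c • 1)
    {δ : lp (fun _ : G => ℂ) 2} (hδ1 : δ 1 = 1) (hδ : ∀ g : G, g ≠ 1 → δ g = 0)
    {ε : ℝ} (hε : 0 < ε) (hdisc : ∀ w : FreeGroup (Fin 2), w ≠ 1 → ε ≤ ‖(φ w).1 δ - δ‖)
    (w : FreeGroup (Fin 2)) (hw : w ≠ 1) : ‖((φ w).1 δ) 1‖ ≤ 6 / 7 := by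
  classical
  have e : δ = dl := by
    ext g
    unfold dl
    rw [lp.single_apply]
    by_cases hg : g = 1
    · subst hg; rw [hδ1]; simp
    · rw [hδ g hg, Pi.single_eq_of_ne hg]
  subst e
  have hP : ∀ w, InL (U φ w) ∧ InL (star (U φ w)) := fun w => ⟨hL w, by
    rw [U_star]; exact hL w⁻¹⟩
  have h := core φ (std_LG (G := G)) hP hfac hε hdisc hw
  rwa [inner_dl] at h

end

end Pool.Agent.Helper9.UGap
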